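import Pool.Agent.H487.ED.Stm
import Pool.Agent.H253.E.Sad

/-! `S_SADE`: the saddle point lower bound with an arbitrarily small loss. -/

set_option autoImplicit false

open Complex Filter Topology Metric Set MeasureTheory

namespace Pool.Agent.H686.ED

open Pool.Agent.H253.E

/-- the saddle point is small -/
theorem saddle_small (K e : ℝ) (hK : 0 < K) (G : ℂ → ℂ)
    (h1 : ∀ z : ℂ, ‖z‖ ≤ 3 / 20 → ‖deriv G z‖ ≤ 320 * e * K) (φ : ℂ) (hφ : ‖φ‖ ≤ 1 / 1000)
    (hφ0 : D1 K G φ = 0) : ‖φ‖ ≤ 640 * e := by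
  have h2 : (K : ℂ) * (I * (cexp (I * φ) - 1)) = - deriv G φ := by
    unfold D1 at hφ0
    linear_combination hφ0
  have h3 : K * ‖cexp (I * φ) - 1‖ ≤ 320 * e * K := by
    have h4 : K * ‖cexp (I * φ) - 1‖ = ‖(K : ℂ) * (I * (cexp (I * φ) - 1))‖ := by
      rw [norm_mul, norm_mul, norm_I, one_mul, norm_real, Real.norm_of_nonneg hK.le]
    rw [h4, h2, norm_neg]
    exact h1 φ (by linarith)
  have h5 : ‖cexp (I * φ) - 1‖ ≤ 320 * e := by
    by_contra hlt
    push Not at hlt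
    have := mul_lt_mul_of_pos_left hlt hK
    linarith
  have h6 : ‖I * φ‖ = ‖φ‖ := by rw [norm_mul, norm_I, one_mul]
  have h7 := norm_exp_sub_one_sub_id_le (x := I * φ) (by rw [h6]; linarith)
  rw [h6] at h7
  have h8 : ‖φ‖ ≤ ‖cexp (I * φ) - 1‖ + ‖φ‖ ^ 2 := by
    calc ‖φ‖ = ‖(cexp (I * φ) - 1) - (cexp (I * φ) - 1 - I * φ)‖ := by
          rw [sub_sub_cancel, h6]
      _ ≤ ‖cexp (I * φ) - 1‖ + ‖cexp (I * φ) - 1 - I * φ‖ := norm_sub_le _ _
      _ ≤ ‖cexp (I * φ) - 1‖ + ‖φ‖ ^ 2 := by linarith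
  have h9 : ‖φ‖ ^ 2 ≤ 1 / 1000 * ‖φ‖ := by
    rw [sq]
    exact mul_le_mul_of_nonneg_right hφ (norm_nonneg _)
  linarith [norm_nonneg φ]

/-- the value at the saddle -/
theorem value' (K e : ℝ) (hK : 0 < K) (he : 0 < e) (G : ℂ → ℂ)
    (hG : DifferentiableOn ℂ G (ball 0 (1 / 4)))
    (h1 : ∀ z : ℂ, ‖z‖ ≤ 3 / 20 → ‖deriv G z‖ ≤ 320 * e * K) (φ : ℂ) (hφ : ‖φ‖ ≤ 1 / 1000)
    (hφ2 : ‖φ‖ ≤ 640 * e) : K + (G 0).re - 2 * e * K ≤ (Psi K G φ).re := by
  obtain ⟨s, hs⟩ : ∃ s : Set ℂ, s = closedBall 0 ‖φ‖ := ⟨_, rfl⟩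
  have hconv : Convex ℝ s := by rw [hs]; exact convex_closedBall _ _
  have h0s : (0 : ℂ) ∈ s := by rw [hs]; exact mem_closedBall_self (norm_nonneg _)
  have hφs : φ ∈ s := by rw [hs, mem_closedBall_zero_iff]
  have hsn : ∀ w ∈ s, ‖w‖ ≤ ‖φ‖ := by
    intro w hw
    rw [hs, mem_closedBall_zero_iff] at hw
    exact hw
  have h3 := hconv.norm_image_sub_le_of_norm_hasDerivWithin_le (C := 1600 * e * K)
    (fun z hz => (hasD K G hG z (by
      rw [mem_ball_zero_iff]
      linarith [hsn z hz])).hasDerivWithinAt) (fun w hw => by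
        unfold D1
        refine (norm_add_le _ _).trans ?_
        rw [norm_mul, norm_mul, norm_I, one_mul, norm_real, Real.norm_of_nonneg hK.le]
        have h4 := expI w (by linarith [hsn w hw])
        have h5 := h1 w (by linarith [hsn w hw])
        have h6 : K * ‖cexp (I * w) - 1‖ ≤ K * (2 * (640 * e)) :=
          mul_le_mul_of_nonneg_left (h4.trans (by linarith [hsn w hw])) hK.le
        linarith) h0s hφs
  have h4 : Psi K G 0 = K + G 0 := by
    unfold Psi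
    simp
  rw [h4, sub_zero] at h3
  have h5 := abs_re_le_norm (Psi K G φ - (K + G 0))
  have h6 : 1600 * e * K * ‖φ‖ ≤ 2 * e * K := by
    have h8 : 0 < e * K := by positivity
    have h9 : e * K * ‖φ‖ ≤ e * K * (1 / 1000) := mul_le_mul_of_nonneg_left hφ h8.le
    linarith
  have h7 := (abs_le.1 (h5.trans (h3.trans h6))).1
  simp only [sub_re, add_re, ofReal_re] at h7
  linarith

theorem sade_proof : Pool.Agent.H487.ED.S_SADE := by
  intro ε hε
  obtain ⟨d, hdd⟩ : ∃ d : ℝ, d = min ε (1 / 2000) := ⟨_, rfl⟩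
  have hd0 : 0 < d := by rw [hdd]; exact lt_min hε (by norm_num)
  have hdε : d ≤ ε := by rw [hdd]; exact min_le_left _ _
  have hd1 : d ≤ 1 / 2000 := by rw [hdd]; exact min_le_right _ _
  obtain ⟨k1, hk1⟩ := exists_nat_ge (29 / d ^ 2)
  refine ⟨d / 10 ^ 7, by positivity, max (10 ^ 9) k1, fun k hk G hG hGb => ?_⟩
  obtain ⟨K, hKd⟩ : ∃ K : ℝ, K = (k : ℝ) := ⟨_, rfl⟩
  have hK : 10 ^ 9 ≤ K := by
    rw [hKd]
    exact_mod_cast (le_max_left _ _).trans hk
  have hKk1 : 29 / d ^ 2 ≤ K := by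
    rw [hKd]
    exact hk1.trans (by exact_mod_cast (le_max_right _ _).trans hk)
  have hK0 : 0 < K := by linarith
  rw [← hKd] at hGb
  obtain ⟨e, he⟩ : ∃ e : ℝ, e = d / 10 ^ 7 := ⟨_, rfl⟩
  rw [← he] at hGb
  have he0 : 0 < e := by rw [he]; positivity
  have he1 : e ≤ 1 / 10 ^ 8 := by
    rw [he, div_le_iff₀ (by norm_num)]
    linarith
  obtain ⟨h1, h2⟩ := dG K e hK0 he0 G hG hGb
  have h1' : ∀ z : ℂ, ‖z‖ ≤ 3 / 20 → ‖deriv G z‖ ≤ K / 10000 := fun z hz =>
    (h1 z hz).trans (by nlinarith)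
  have h2' : ∀ z : ℂ, ‖z‖ ≤ 7 / 50 → ‖deriv (deriv G) z‖ ≤ K / 2500 := fun z hz =>
    (h2 z hz).trans (by nlinarith)
  obtain ⟨φ, hφ, hφ0⟩ := saddle K hK0 G hG h1' h2'
  have hval : K + (G 0).re - d / 4 * K ≤ (Psi K G φ).re := by
    have hφ2 := saddle_small K e hK0 G h1 φ hφ hφ0
    have hv := value' K e hK0 he0 G hG h1 φ hφ hφ2
    have h3 : 2 * e * K ≤ d / 4 * K := by
      refine mul_le_mul_of_nonneg_right ?_ hK0.le
      rw [he]
      linarith
    linarith
  have ha : |φ.re| ≤ 1 / 1000 := (abs_re_le_norm φ).trans hφ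
  have hb : |φ.im| ≤ 1 / 1000 := (abs_im_le_norm φ).trans hφ
  have ha' := abs_le.1 ha
  have hb' := abs_le.1 hb
  obtain ⟨F, hF⟩ : ∃ F : ℂ → ℂ, F = fun z => cexp (Psi K G z) := ⟨_, rfl⟩
  have hFd : DifferentiableOn ℂ F (ball 0 (1 / 4)) := by
    rw [hF]
    intro z hz
    exact ((hasD K G hG z hz).cexp).differentiableAt.differentiableWithinAt
  -- contour shift
  have hrect := integral_boundary_rect_eq_zero_of_differentiableOn F ⟨-(1 / 8), 0⟩ ⟨1 / 8, φ.im⟩
    (hFd.mono (by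
      intro z hz
      rw [mem_reProdIm] at hz
      simp only at hz
      have hz1 : |z.re| ≤ 1 / 8 := by
        have := hz.1
        rw [uIcc_of_le (by norm_num)] at this
        exact abs_le.2 this
      have hz2 : |z.im| ≤ 1 / 1000 := by
        have h3 := hz.2
        rw [mem_uIcc] at h3
        rcases h3 with h3 | h3
        · exact abs_le.2 ⟨by linarith [h3.1], by linarith [h3.2]⟩
        · exact abs_le.2 ⟨by linarith [h3.1], by linarith [h3.2]⟩
      rw [mem_ball_zero_iff]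
      linarith [norm_le_abs_re_add_abs_im z]))
  simp only [ofReal_zero, zero_mul, add_zero] at hrect
  -- the shifted integral
  have hshift : ∫ x in (-(1 / 8) : ℝ)..(1 / 8), F (x + φ.im * I) =
      cexp (Psi K G φ) * ∫ x in (-(1 / 8) - φ.re)..(1 / 8 - φ.re),
        cexp (Psi K G (φ + x) - Psi K G φ) := by
    have h3 : ∫ x in (-(1 / 8) : ℝ)..(1 / 8), F (x + φ.im * I) =
        ∫ x in (-(1 / 8) : ℝ)..(1 / 8), (fun y : ℝ => F (φ + y)) (x - φ.re) := by
      refine intervalIntegral.integral_congr fun x _ => ?_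
      simp only
      congr 1
      apply Complex.ext <;> simp
    rw [h3, intervalIntegral.integral_comp_sub_right (fun y : ℝ => F (φ + y)),
      ← intervalIntegral.integral_const_mul]
    refine intervalIntegral.integral_congr fun x _ => ?_
    rw [hF, ← exp_add]
    simp only
    congr 1
    ring
  have hg := gauss K hK (-(1 / 8) - φ.re) (1 / 8 - φ.re) (by linarith) (by linarith) (by linarith)
    (by linarith) (fun x => Psi K G (φ + x) - Psi K G φ) (by
      refine ContinuousOn.sub ?_ continuousOn_const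
      intro x hx
      have hx1 : |x| ≤ 127 / 1000 := abs_le.2 ⟨by linarith [hx.1], by linarith [hx.2]⟩
      have hzb : φ + (x : ℂ) ∈ ball (0 : ℂ) (1 / 4) := by
        rw [mem_ball_zero_iff]
        calc ‖φ + (x : ℂ)‖ ≤ ‖φ‖ + ‖(x : ℂ)‖ := norm_add_le _ _
          _ = ‖φ‖ + |x| := by rw [norm_real]; rfl
          _ < 1 / 4 := by linarith
      have h3 : ContinuousAt (Psi K G) (φ + (x : ℂ)) := (hasD K G hG _ hzb).continuousAt
      have h4 : ContinuousAt (fun x : ℝ => φ + (x : ℂ)) x := by fun_prop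
      exact (ContinuousAt.comp (f := fun x : ℝ => φ + (x : ℂ)) h3 h4).continuousWithinAt) (by
      intro x hx
      have hx1 : |x| ≤ 127 / 1000 := abs_le.2 ⟨by linarith [hx.1], by linarith [hx.2]⟩
      have hn : ‖(φ + (x : ℂ)) - φ‖ = |x| := by
        rw [add_sub_cancel_left, norm_real]
        rfl
      have h3 := taylor K hK0 G hG h2' φ hφ hφ0 (φ + (x : ℂ)) (by rw [hn]; exact hx1)
      rw [hn, sq_abs] at h3
      rw [add_sub_cancel_left] at h3
      exact h3)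
  have hmain : Real.exp (K + (G 0).re - d / 4 * K) * (1 / (4 * Real.sqrt K)) ≤
      ‖∫ x in (-(1 / 8) : ℝ)..(1 / 8), F (x + φ.im * I)‖ := by
    rw [hshift, norm_mul, norm_exp]
    exact mul_le_mul (Real.exp_le_exp.2 hval) hg (by positivity) (Real.exp_pos _).le
  -- the vertical segments
  obtain ⟨V, hV⟩ : ∃ V, V = Real.exp (993 / 1000 * K + (G 0).re + 2 * e * K) := ⟨_, rfl⟩
  have hvert : ∀ x : ℝ, |x| = 1 / 8 → ‖∫ y in (0 : ℝ)..φ.im, F (x + y * I)‖ ≤ V * (1 / 1000) := by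
    intro x hx
    have h3 : ‖∫ y in (0 : ℝ)..φ.im, F (x + y * I)‖ ≤ V * |φ.im - 0| := by
      refine intervalIntegral.norm_integral_le_of_norm_le_const fun y hy => ?_
      rw [hF, hV]
      refine vert K hK0 e G hGb x y hx ?_
      rw [mem_uIoc] at hy
      rcases hy with h4 | h4
      · exact abs_le.2 ⟨by linarith [h4.1], by linarith [h4.2]⟩
      · exact abs_le.2 ⟨by linarith [h4.1], by linarith [h4.2]⟩
    rw [sub_zero] at h3
    exact h3.trans (mul_le_mul_of_nonneg_left hb (by rw [hV]; positivity))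
  have hv1 := hvert (1 / 8) (by norm_num)
  have hv2 := hvert (-(1 / 8)) (by norm_num)
  have htri : ‖∫ x in (-(1 / 8) : ℝ)..(1 / 8), F (x + φ.im * I)‖ ≤
      ‖∫ x in (-(1 / 8) : ℝ)..(1 / 8), F x‖ + V * (2 / 1000) := by
    have h3 : ∫ x in (-(1 / 8) : ℝ)..(1 / 8), F (x + φ.im * I) =
        (∫ x in (-(1 / 8) : ℝ)..(1 / 8), F x) +
          (I * (∫ y in (0 : ℝ)..φ.im, F (((1 / 8 : ℝ) : ℂ) + y * I)) -
            I * ∫ y in (0 : ℝ)..φ.im, F (((-(1 / 8) : ℝ) : ℂ) + y * I)) := by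
      simp only [smul_eq_mul] at hrect
      linear_combination -hrect
    rw [h3]
    refine (norm_add_le _ _).trans (add_le_add le_rfl ((norm_sub_le _ _).trans ?_))
    rw [norm_mul, norm_mul, norm_I, one_mul, one_mul]
    linarith
  have hfin : (∫ x in (-(1 / 8) : ℝ)..(1 / 8), cexp (k * (cexp (I * x) - I * x) + G x)) =
      ∫ x in (-(1 / 8) : ℝ)..(1 / 8), F x := by
    refine intervalIntegral.integral_congr fun x _ => ?_
    rw [hF, hKd]
    unfold Psi
    simp only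
    norm_cast
  rw [hfin, ← hKd]
  refine (Real.exp_le_exp.2 (show K - ε * K + (G 0).re ≤ K - d * K + (G 0).re by
    have := mul_le_mul_of_nonneg_right hdε hK0.le
    linarith)).trans ?_
  -- numbers
  obtain ⟨P, hP⟩ : ∃ P, P = Real.exp (K - d * K + (G 0).re) := ⟨_, rfl⟩
  have hP0 : 0 < P := by rw [hP]; positivity
  have hm1 : Real.exp (K + (G 0).re - d / 4 * K) * (1 / (4 * Real.sqrt K)) =
      P * (Real.exp (3 / 4 * (d * K)) / (4 * Real.sqrt K)) := by
    have : K + (G 0).re - d / 4 * K = (K - d * K + (G 0).re) + 3 / 4 * (d * K) := by ring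
    rw [this, Real.exp_add, hP]
    ring
  have hm2 : V ≤ P := by
    rw [hV, hP]
    refine Real.exp_le_exp.2 ?_
    have h3 : e * K ≤ 1 / 10 ^ 8 * K := mul_le_mul_of_nonneg_right he1 hK0.le
    have h4 : d * K ≤ 1 / 2000 * K := mul_le_mul_of_nonneg_right hd1 hK0.le
    linarith
  have hm3 : 2 ≤ Real.exp (3 / 4 * (d * K)) / (4 * Real.sqrt K) := by
    have hs : Real.sqrt K ≤ K := by
      rw [Real.sqrt_le_left hK0.le]
      nlinarith
    have hs0 : 0 < Real.sqrt K := Real.sqrt_pos.2 hK0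
    rw [le_div_iff₀ (by positivity)]
    have h3 := Real.quadratic_le_exp_of_nonneg (x := 3 / 4 * (d * K)) (by positivity)
    have h4 : 8 * K ≤ (3 / 4 * (d * K)) ^ 2 / 2 := by
      have h6 : 29 ≤ d ^ 2 * K := by
        rw [div_le_iff₀ (by positivity)] at hKk1
        linarith
      have h7 : 29 * K ≤ d ^ 2 * K * K := mul_le_mul_of_nonneg_right h6 hK0.le
      have h8 : (3 / 4 * (d * K)) ^ 2 / 2 = 9 / 32 * (d ^ 2 * K * K) := by ring
      rw [h8]
      linarith
    have h5 : 0 ≤ 3 / 4 * (d * K) := by positivity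
    linarith
  rw [hm1] at hmain
  rw [← hP]
  have h6 : P * 2 ≤ P * (Real.exp (3 / 4 * (d * K)) / (4 * Real.sqrt K)) :=
    mul_le_mul_of_nonneg_left hm3 hP0.le
  linarith

end Pool.Agent.H686.ED
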